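import Pool.Agent.H88.AM.Common

/-! Module FC of the Alperin–McKay reduction (MP_657073_al) -/

open scoped Classical ComplexConjugate

set_option linter.unusedSectionVars false
set_option linter.style.haveILetI false

namespace AMc.H88

section

variable {Γ : Type} [Group Γ] [Fintype Γ] {F : Type} [Field F]

/-- restriction of an element of the group algebra to the subgroup `K` -/
noncomputable def rstr (K : Subgroup Γ) (z : MonoidAlgebra F Γ) : MonoidAlgebra F Γ :=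
  MonoidAlgebra.ofCoeff (z.coeff.filter (fun g => g ∈ K))

theorem coeff_rstr (K : Subgroup Γ) (z : MonoidAlgebra F Γ) (g : Γ) :
    (rstr K z).coeff g = if g ∈ K then z.coeff g else 0 := by
  show (z.coeff.filter (fun g => g ∈ K)) g = _
  rw [Finsupp.filter_apply]

theorem rstr_mem {K H : Subgroup Γ} (hn : ∀ u ∈ H, ∀ g ∈ K, u * g * u⁻¹ ∈ K)
    {z : MonoidAlgebra F Γ} {N : Subgroup Γ} (hz : z ∈ ZA F N H) : rstr K z ∈ ZA F K H := by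
  refine ⟨fun g hg => ?_, fun u hu g => ?_⟩
  · rw [coeff_rstr, if_neg hg]
  · rw [coeff_rstr, coeff_rstr, hz.2 u hu g]
    simp only [nor_iff hn hu g]

theorem lam_rstr (π : integralClosure ℤ ℂ →+* F) {K : Subgroup Γ} {φ : Γ → ℂ}
    (hφ : ∀ g, g ∉ K → φ g = 0) (z : MonoidAlgebra F Γ) :
    lam π φ (rstr K z) = lam π φ z := by
  unfold lam
  congr 2
  refine Finset.sum_congr rfl fun g _ => ?_
  by_cases hg : g ∈ K
  · rw [coeff_rstr, if_pos hg]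
  · rw [hφ g hg, mul_zero, mul_zero]

theorem conjs_stable (U P : Subgroup Γ) : ∀ u ∈ U, ∀ D ∈ conjs U P,
    D.map (MulAut.conj u).toMonoidHom ∈ conjs U P := by
  rintro u hu _ ⟨v, hv, rfl⟩
  refine ⟨u * v, U.mul_mem hu hv, ?_⟩
  rw [Subgroup.map_map]
  congr 1
  ext g
  simp [MulAut.conj_apply, mul_assoc]

end

/-- nonvanishing on the ideal -/
theorem fj (E1 : T_E1) (B1 : T_B1) (B4 : T_B4) (C4 : T_C4) (F0 : T_F0) : T_FJ := by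
  intro F _ π hπ ℓ _ _ Γ _ _ Q _ _ s U M E hQ ψ hψ hdef
  set K := M ⊓ s.ker with hK
  set P := E ⊓ s.ker with hP
  have hEM : E ≤ M := hdef.2.1
  have hKM : K ≤ M := inf_le_left
  have nKU : ∀ u ∈ U, ∀ g ∈ K, u * g * u⁻¹ ∈ K := nor_ker s hQ.nor
  have nKM : ∀ u ∈ M, ∀ g ∈ K, u * g * u⁻¹ ∈ K := fun u hu => nKU u (hQ.le hu)
  obtain ⟨y, hyK, hy, hEy, hind1, hind2⟩ := F0 F ℓ Γ Q s M E (lam π ψ) (B1 F π hπ Γ M ψ hψ) hdef
  have hPp : IsPGroup ℓ P := hdef.1.to_le inf_le_left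
  have hPK : P ≤ K := inf_le_inf_right _ hEM
  have hyP : P ≤ Subgroup.centralizer {y} := inf_le_left.trans hEy
  have hySD : y ∈ SD ℓ K (conjs U P) := by
    have h1 := mem_SD_of_sylow (N := K) hPp hPK hyK hyP hind2
    refine ⟨h1.1, fun R hR hRN hRc => ?_⟩
    obtain ⟨D, ⟨u, hu, hD⟩, hRD⟩ := h1.2 R hR hRN hRc
    exact ⟨D, ⟨u, hQ.le (hKM hu), hD⟩, hRD⟩
  have hcmem : csum F (cls M y) ∈ ZA F K M := csum_cls_mem nKM hyK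
  obtain ⟨θ, hθ, ho⟩ := E1 Γ K M hKM ψ hψ
  have hθc : lam π θ (csum F (cls M y)) ≠ 0 := by
    rw [← B4 F π hπ Γ K M hKM nKM ψ hψ θ hθ ho _ hcmem]; exact hy
  obtain ⟨w, hw, hwsupp, hwne⟩ := C4 F ℓ Γ K U (hKM.trans hQ.le) nKU (conjs U P)
    (conjs_stable U P) (lam π θ) (B1 F π hπ Γ K θ hθ) (csum F (cls M y))
    (ZA_mono le_rfl hKM hcmem) (by
      intro g hg
      rw [coeff_csum] at hg
      have hg' : g ∈ cls M y := by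
        by_contra h
        exact hg (if_neg h)
      obtain ⟨m, hm, rfl⟩ := mem_cls.1 hg'
      exact SD_conj (nor_iff nKM hm) (conjs_stable U P m (hQ.le hm)) hySD) hθc
  refine ⟨w, hw, hwsupp, ?_⟩
  rw [B4 F π hπ Γ K M hKM nKM ψ hψ θ hθ ho w (ZA_mono le_rfl hQ.le hw)]
  exact hwne

/-- lower bound for the number of height zero characters -/
theorem fc (S1 : T_S1) (S7 : T_S7) (S9 : T_S9) (E1 : T_E1) (E2 : T_E2)
    (E4 : T_E4) (E7 : T_E7) (E8 : T_E8) (E9 : T_E9) (B1 : T_B1) (B4 : T_B4) (B5 : T_B5)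
    (G1 : T_G1) (F0 : T_F0) (F1 : T_F1) (F2 : T_F2) (F3 : T_F3) (F4 : T_F4) :
    T_FC := by
  intro F _ π hπ ℓ _ _ Γ _ _ Q _ _ s U M E hQ ψ hψ hdef hNI hψ0
  set K := M ⊓ s.ker with hK
  set H := U ⊓ s.ker with hH
  set P := E ⊓ s.ker with hP
  have hEM : E ≤ M := hdef.2.1
  have hKM : K ≤ M := inf_le_left
  have hHU : H ≤ U := inf_le_left
  have hKH : K ≤ H := inf_le_inf_right _ hQ.le
  have hPK : P ≤ K := inf_le_inf_right _ hEM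
  have hPp : IsPGroup ℓ P := hdef.1.to_le inf_le_left
  have nKU : ∀ u ∈ U, ∀ g ∈ K, u * g * u⁻¹ ∈ K := nor_ker s hQ.nor
  have nKM : ∀ u ∈ M, ∀ g ∈ K, u * g * u⁻¹ ∈ K := fun u hu => nKU u (hQ.le hu)
  have nKH : ∀ u ∈ H, ∀ g ∈ K, u * g * u⁻¹ ∈ K := fun u hu => nKU u (hHU hu)
  obtain ⟨y, hyK, hy, hEy, hind1, hind2⟩ := F0 F ℓ Γ Q s M E (lam π ψ) (B1 F π hπ Γ M ψ hψ) hdef
  have hyP : P ≤ Subgroup.centralizer {y} := inf_le_left.trans hEy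
  obtain ⟨θ₀, hθ₀, ho₀, hy₀⟩ := F2 F π hπ ℓ Γ K M hKM nKM y hyK ψ hψ hy
  have hinert0 : ∀ h ∈ H, (∀ z ∈ ZA F K K, lam π (cj h θ₀) z = lam π θ₀ z) → h ∈ K :=
    fun h hh hz => ⟨F3 F π hπ ℓ Γ Q s U M hQ ψ hψ hNI θ₀ hθ₀ ho₀ h (hHU hh) hz, hh.2⟩
  have hν0 : ∀ ψ' ∈ K0H π ℓ M ψ E, ∀ θ ∈ IrrS K, Over ψ' θ → ∀ d' : ℕ, θ 1 = d' →
      padicValNat ℓ d' = padicValNat ℓ (P.relIndex K) := by
    rintro ψ' ⟨hψ', hlamψ', d, hd, hνd⟩ θ hθ ho d' hd'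
    refine F1 F π hπ ℓ Γ Q s M E hdef.1 hEM y hyK hEy hind1 hind2 ψ' hψ' ?_ d hd hνd θ hθ ho
      d' hd'
    rw [hlamψ' _ (csum_cls_mem_self (hKM hyK))]
    exact hy
  obtain ⟨χ, hχ, hoχ⟩ := E4 Γ K H hKH θ₀ hθ₀
  obtain ⟨hvan, -, hdefχ⟩ := F4 F π hπ ℓ Γ K H P hKH nKH hPp hPK θ₀ hθ₀ hinert0 y hyK hy₀ hyP hind2
    (hν0 ψ hψ0 θ₀ hθ₀ ho₀) χ hχ hoχ
  refine ⟨χ, hχ, hdefχ, ?_, ?_⟩
  · intro z hz
    rw [B4 F π hπ Γ K H hKH nKH χ hχ θ₀ hθ₀ hoχ z (ZA_mono le_rfl hHU hz),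
      B4 F π hπ Γ K M hKM nKM ψ hψ θ₀ hθ₀ ho₀ z (ZA_mono le_rfl hQ.le hz)]
  -- inertia of characters in the block of `θ₀`
  have hinert : ∀ θ ∈ IrrS K, (∀ z ∈ ZA F K K, lam π θ z = lam π θ₀ z) →
      ∀ h ∈ H, (∀ z ∈ ZA F K K, lam π (cj h θ) z = lam π θ₀ z) → h ∈ K := by
    intro θ hθ hlam h hh heq
    refine hinert0 h hh (fun z hz => ?_)
    have hz1 : cjA h⁻¹ z ∈ ZA F K K :=
      cjA_mem (nor_iff nKH (H.inv_mem hh)) (nKH h⁻¹ (H.inv_mem hh)) hz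
    rw [B5 F π Γ θ₀ h z, ← hlam _ hz1, ← B5 F π Γ θ h z, heq z hz]
  -- the main construction
  have key : ∀ ψ' ∈ K0H π ℓ M ψ E, ∃ θ ∈ IrrS K, ∃ χ' ∈ K0H π ℓ H χ P, Over ψ' θ ∧
      (∀ z ∈ ZA F K K, lam π θ z = lam π θ₀ z) ∧ Over χ' θ := by
    intro ψ' hψ0'
    obtain ⟨hψ', hlamψ', d, hd, hνd⟩ := id hψ0'
    obtain ⟨θ', hθ', hoθ'⟩ := E1 Γ K M hKM ψ' hψ'
    have hagree : ∀ z ∈ ZA F (K ⊓ s.ker) M, lam π θ' z = lam π θ₀ z := by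
      intro z hz
      have hz' : z ∈ ZA F K M := ZA_mono inf_le_left le_rfl hz
      rw [← B4 F π hπ Γ K M hKM nKM ψ' hψ' θ' hθ' hoθ' z hz', hlamψ' z (ZA_mono hKM le_rfl hz'),
        B4 F π hπ Γ K M hKM nKM ψ hψ θ₀ hθ₀ ho₀ z hz']
    obtain ⟨m, hm, μ, hmμ⟩ := G1 F π hπ ℓ Γ Q s K M hKM nKM (lam π θ') (lam π θ₀)
      (B1 F π hπ Γ K θ' hθ') (B1 F π hπ Γ K θ₀ hθ₀) hagree
    set θ := cj m θ' with hθdef
    have hθ : θ ∈ IrrS K := cj_mem_IrrS S7 nKM hm hθ'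
    have hoθ : Over ψ' θ := by
      have := over_cj m hoθ'
      rwa [cj_of_mem S1 hψ' hm] at this
    have hlamθ : ∀ z ∈ ZA F K K, lam π θ z = lam π θ₀ z := by
      intro z hz
      have hz1 : cjA m⁻¹ z ∈ ZA F K K :=
        cjA_mem (nor_iff nKM (M.inv_mem hm)) (nKM m⁻¹ (M.inv_mem hm)) hz
      rw [hθdef, B5 F π Γ θ' m z, hmμ _ hz1, twA_of_ker π s μ inf_le_right hz1, cjA_cjA,
        inv_mul_cancel, cjA_one_left]
    obtain ⟨χ', hχ', hoχ'⟩ := E4 Γ K H hKH θ hθ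
    have hin : ∀ u ∈ H, cj u θ = θ → u ∈ K := by
      intro u hu heq
      refine hinert θ hθ hlamθ u hu (fun z hz => ?_)
      rw [heq, hlamθ z hz]
    obtain ⟨hvan', hdeg', -⟩ := E7 Γ K H hKH nKH χ' hχ' θ hθ hoχ' hin
    refine ⟨θ, hθ, χ', ⟨hχ', ?_, ?_⟩, hoθ, hlamθ, hoχ'⟩
    · intro z hz
      have hzK : rstr K z ∈ ZA F K H := rstr_mem nKH hz
      rw [← lam_rstr π hvan' z, ← lam_rstr π hvan z,
        B4 F π hπ Γ K H hKH nKH χ' hχ' θ hθ hoχ' _ hzK,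
        B4 F π hπ Γ K H hKH nKH χ hχ θ₀ hθ₀ hoχ _ hzK, hlamθ _ (ZA_mono le_rfl hKH hzK)]
    · obtain ⟨d2, hd2, hd2'⟩ := (S1 Γ K θ hθ).2.2.1
      refine ⟨K.relIndex H * d2, by rw [hdeg', hd2']; push_cast; ring, ?_⟩
      have hrel : P.relIndex H = P.relIndex K * K.relIndex H :=
        (Subgroup.relIndex_mul_relIndex P K H hPK hKH).symm
      have hKHpos : K.relIndex H ≠ 0 := relIndex_pos.ne'
      have hPKpos : P.relIndex K ≠ 0 := relIndex_pos.ne'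
      rw [hrel, padicValNat.mul hKHpos hd2.ne', padicValNat.mul hPKpos hKHpos,
        hν0 ψ' hψ0' θ hθ hoθ d2 hd2']
      ring
  choose! θf hθf χf hχf ho1 hlamf ho2 using key
  -- finiteness
  have hMfin : (IrrS M).Finite := by
    obtain ⟨fs, hfs, -⟩ := S9 Γ M
    exact (fs.finite_toSet).subset (fun ψ' hψ' => (hfs ψ').2 hψ')
  have hHfin : (IrrS H).Finite := by
    obtain ⟨fs, hfs, -⟩ := S9 Γ H
    exact (fs.finite_toSet).subset (fun ψ' hψ' => (hfs ψ').2 hψ')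
  have hAfin : (K0H π ℓ M ψ E).Finite := hMfin.subset (fun _ h => h.1)
  have hBfin : (K0H π ℓ H χ P).Finite := hHfin.subset (fun _ h => h.1)
  haveI : Finite (Q →* ℂˣ) := (E9 Q).1
  haveI : Fintype (Q →* ℂˣ) := Fintype.ofFinite _
  rw [Set.ncard_eq_toFinset_card _ hAfin, Set.ncard_eq_toFinset_card _ hBfin]
  refine Finset.card_le_mul_card_image_of_maps_to (f := χf) ?_ (Nat.card Q) ?_
  · intro ψ' hψ'
    rw [Set.Finite.mem_toFinset] at hψ' ⊢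
    exact hχf ψ' hψ'
  · intro χ' _
    rcases Finset.eq_empty_or_nonempty
      ({ψ' ∈ hAfin.toFinset | χf ψ' = χ'} : Finset (Γ → ℂ)) with he | ⟨ψ₁, hψ₁⟩
    · rw [he]; simp
    · rw [Finset.mem_filter, Set.Finite.mem_toFinset] at hψ₁
      have hsub : ({ψ' ∈ hAfin.toFinset | χf ψ' = χ'} : Finset (Γ → ℂ)) ⊆
          (Finset.univ : Finset (Q →* ℂˣ)).image (fun μ => tw s μ ψ₁) := by
        intro ψ₂ hψ₂
        rw [Finset.mem_filter, Set.Finite.mem_toFinset] at hψ₂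
        rw [Finset.mem_image]
        have hov1 : Over χ' (θf ψ₁) := hψ₁.2 ▸ ho2 ψ₁ hψ₁.1
        have hov2 : Over χ' (θf ψ₂) := hψ₂.2 ▸ ho2 ψ₂ hψ₂.1
        have hχ'H : χ' ∈ IrrS H := hψ₁.2 ▸ (hχf ψ₁ hψ₁.1).1
        obtain ⟨h, hh, hθh⟩ := E2 Γ K H hKH nKH χ' hχ'H (θf ψ₁) (hθf ψ₁ hψ₁.1) (θf ψ₂)
          (hθf ψ₂ hψ₂.1) hov1 hov2
        have hhK : h ∈ K := by
          refine hinert (θf ψ₁) (hθf ψ₁ hψ₁.1) (hlamf ψ₁ hψ₁.1) h hh (fun z hz => ?_)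
          rw [← hθh, hlamf ψ₂ hψ₂.1 z hz]
        have hθeq : θf ψ₂ = θf ψ₁ := by
          rw [hθh, cj_of_mem S1 (hθf ψ₁ hψ₁.1) hhK]
        obtain ⟨μ, hμ⟩ := E8 Γ Q s M ψ₁ hψ₁.1.1 ψ₂ hψ₂.1.1 (θf ψ₁) (hθf ψ₁ hψ₁.1)
          (ho1 ψ₁ hψ₁.1) (hθeq ▸ ho1 ψ₂ hψ₂.1)
        exact ⟨μ, Finset.mem_univ _, hμ.symm⟩
      calc _ ≤ ((Finset.univ : Finset (Q →* ℂˣ)).image (fun μ => tw s μ ψ₁)).card :=
            Finset.card_le_card hsub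
        _ ≤ (Finset.univ : Finset (Q →* ℂˣ)).card := Finset.card_image_le
        _ = Nat.card (Q →* ℂˣ) := by rw [Finset.card_univ, Nat.card_eq_fintype_card]
        _ ≤ Nat.card Q := (E9 Q).2

end AMc.H88
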