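import Pool.Agent.H3.AM.Basic

/-! Common lemmas for the modules FC and GC of the Alperin–McKay reduction (MP_657073_al) -/

open scoped Classical ComplexConjugate

set_option linter.unusedSectionVars false
set_option linter.style.haveILetI false

namespace AMc.H88

variable {Γ : Type} [Group Γ] [Fintype Γ]

theorem cj_apply (u : Γ) (θ : Γ → ℂ) (g : Γ) : cj u θ g = θ (u * g * u⁻¹) := rfl

theorem cj_mul (u v : Γ) (θ : Γ → ℂ) : cj (u * v) θ = cj v (cj u θ) := by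
  funext g; simp only [cj]; congr 1; group

theorem cj_of_mem (S1 : T_S1) {U : Subgroup Γ} {χ : Γ → ℂ} (hχ : χ ∈ IrrS U) {u : Γ}
    (hu : u ∈ U) : cj u χ = χ := by
  funext g
  exact (S1 Γ U χ hχ).2.1 u hu g

theorem over_cj {χ θ : Γ → ℂ} (u : Γ) (h : Over χ θ) : Over (cj u χ) (cj u θ) := by
  unfold Over at *
  have : ∑ g : Γ, cj u χ g * starRingEnd ℂ (cj u θ g) = ∑ g : Γ, χ g * starRingEnd ℂ (θ g) := by
    refine Fintype.sum_equiv (MulAut.conj u).toEquiv _ _ (fun g => ?_)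
    simp [cj, MulAut.conj_apply]
  rw [this]; exact h

theorem over_tw {Q : Type} [CommGroup Q] (s : Γ →* Q) (μ : Q →* ℂˣ) {χ θ : Γ → ℂ}
    (hθ : ∀ g, g ∉ s.ker → θ g = 0) (h : Over χ θ) : Over (tw s μ χ) θ := by
  unfold Over at *
  have : ∑ g : Γ, tw s μ χ g * starRingEnd ℂ (θ g) = ∑ g : Γ, χ g * starRingEnd ℂ (θ g) := by
    refine Finset.sum_congr rfl fun g _ => ?_
    by_cases hg : g ∈ s.ker
    · simp [tw, MonoidHom.mem_ker.1 hg]
    · simp [hθ g hg]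
  rw [this]; exact h

theorem supp_inf {Q : Type} [CommGroup Q] (S1 : T_S1) (s : Γ →* Q) {M : Subgroup Γ} {θ : Γ → ℂ}
    (hθ : θ ∈ IrrS (M ⊓ s.ker)) : ∀ g, g ∉ s.ker → θ g = 0 := by
  intro g hg
  exact (S1 Γ _ θ hθ).1 g (fun h => hg h.2)

theorem nor_ker {Q : Type} [CommGroup Q] (s : Γ →* Q) {M U : Subgroup Γ}
    (h : ∀ u ∈ U, ∀ g ∈ M, u * g * u⁻¹ ∈ M) :
    ∀ u ∈ U, ∀ g ∈ M ⊓ s.ker, u * g * u⁻¹ ∈ M ⊓ s.ker := by
  intro u hu g hg
  refine ⟨h u hu g hg.1, ?_⟩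
  show u * g * u⁻¹ ∈ s.ker
  rw [MonoidHom.mem_ker, s_conj]
  exact hg.2

theorem cj_mem_IrrS (S7 : T_S7) {N U : Subgroup Γ} (hn : ∀ u ∈ U, ∀ g ∈ N, u * g * u⁻¹ ∈ N)
    {u : Γ} (hu : u ∈ U) {θ : Γ → ℂ} (hθ : θ ∈ IrrS N) : cj u θ ∈ IrrS N :=
  S7 Γ N N u (fun g => (nor_iff hn hu g).symm) θ hθ

theorem twA_inv {F : Type} [Field F] (π : integralClosure ℤ ℂ →+* F) {Q : Type} [CommGroup Q]
    [Finite Q] (s : Γ →* Q) (μ : Q →* ℂˣ) (z : MonoidAlgebra F Γ) :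
    twA π s μ (twA π s μ⁻¹ z) = z := by
  apply MonoidAlgebra.ext; ext g
  rw [coeff_twA, coeff_twA, ← mul_assoc,
    ← rd_mul π (mu_integral μ (s g)) (mu_integral μ⁻¹ (s g))]
  have : (μ (s g) : ℂ) * (μ⁻¹ (s g) : ℂ) = 1 := by
    rw [MonoidHom.inv_apply, ← Units.val_mul, mul_inv_cancel, Units.val_one]
  rw [this, rd_one, one_mul]

/-- `K = M ⊓ ker s`, `P = E ⊓ ker s` -/
theorem relIndex_ker_dvd {Q : Type} [CommGroup Q] (s : Γ →* Q) {E M : Subgroup Γ} (h : E ≤ M) :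
    ∃ c, 0 < c ∧ E.relIndex M = (E ⊓ s.ker).relIndex (M ⊓ s.ker) * c := by
  have h1 : (E ⊓ s.ker).relIndex E * E.relIndex M = (E ⊓ s.ker).relIndex M :=
    Subgroup.relIndex_mul_relIndex _ _ _ inf_le_left h
  have h2 : (E ⊓ s.ker).relIndex (M ⊓ s.ker) * (M ⊓ s.ker).relIndex M =
      (E ⊓ s.ker).relIndex M :=
    Subgroup.relIndex_mul_relIndex _ _ _ (inf_le_inf_right _ h) inf_le_left
  have h3 : (E ⊓ s.ker).relIndex E = Nat.card (E.map s) := by
    rw [Subgroup.inf_relIndex_left, Subgroup.relIndex_ker]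
  have h4 : (M ⊓ s.ker).relIndex M = Nat.card (M.map s) := by
    rw [Subgroup.inf_relIndex_left, Subgroup.relIndex_ker]
  have h5 : Nat.card (E.map s) ∣ Nat.card (M.map s) :=
    Subgroup.card_dvd_of_le (Subgroup.map_mono h)
  obtain ⟨c, hc⟩ := h5
  rw [h3] at h1
  rw [h4, hc] at h2
  have hpos : 0 < Nat.card (E.map s) := by
    haveI : Finite (E.map s) := by
      haveI : Finite E := inferInstance
      exact Set.Finite.to_subtype ((Set.toFinite (E : Set Γ)).image s)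
    exact Nat.card_pos
  have hposM : 0 < Nat.card (M.map s) := by
    haveI : Finite (M.map s) := by
      haveI : Finite M := inferInstance
      exact Set.Finite.to_subtype ((Set.toFinite (M : Set Γ)).image s)
    exact Nat.card_pos
  refine ⟨c, ?_, ?_⟩
  · rcases Nat.eq_zero_or_pos c with h | h
    · rw [h, mul_zero] at hc; omega
    · exact h
  · apply Nat.eq_of_mul_eq_mul_left hpos
    rw [h1, ← h2]; ring

theorem relIndex_ker_le {Q : Type} [CommGroup Q] [Finite Q] (s : Γ →* Q) (M : Subgroup Γ) :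
    (M ⊓ s.ker).relIndex M ≤ Nat.card Q := by
  rw [Subgroup.inf_relIndex_left, Subgroup.relIndex_ker]
  exact Subgroup.card_le_card_group _

theorem relIndex_pos {A B : Subgroup Γ} : 0 < A.relIndex B := by
  rw [Subgroup.relIndex, Subgroup.index]
  exact Nat.card_pos

end AMc.H88
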